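import Mathlib
import Pool.Agent.Helper43_EOR.Final

set_option autoImplicit false

/-! # Classification of the exactly-one-regular matroids -/

namespace Pool.Agent.Results.MP_948082_co.EorClassification

open Set Matroid Pool.Agent.Helper43_EOR

/-- A finite matroid `M` is exactly-one-regular if and only if its ground set is nonempty and has
a partition into `A` and `B` such that `M` is of one of the nine types with respect to `(A, B)`, or
its dual is with respect to `(B, A)`, and every element is avoided by a set `X` for which the
minor `M / (A \ X) \ (B \ X)` is `U_{2,4}`, the Fano matroid or its dual. -/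
theorem result {α : Type*} (M : Matroid α) (hfin : M.E.Finite) :
    ExactlyOneRegular M ↔ M.E.Nonempty ∧ ∃ A B : Set α, A ∪ B = M.E ∧ Disjoint A B ∧
      (Typed M A B ∨ Typed M✶ B A) ∧
      ∀ e ∈ M.E, ∃ X ⊆ M.E, e ∉ X ∧ IsCore (M ／ (A \ X) ＼ (B \ X)) :=
  classification hfin

end Pool.Agent.Results.MP_948082_co.EorClassification
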